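import Pool.Agent.W355.FR.All

/-!
# Frey's height inequality for 100% of the members of families of elliptic curves

Let `E_i : y² = x³ + A_i(t) x + B_i(t)`, `i = 1, …, n`, be elliptic curves over `ℚ(t)` with
non-constant `j`-invariant, `A_i, B_i ∈ ℤ[t]`, `deg A_i ≤ 4k_i`, `deg B_i ≤ 6k_i`, minimal (no
`P⁴ ∣ A_i`, `P⁶ ∣ B_i`), with good reduction at `t = ∞` (`deg (4A_i³ + 27B_i²) = 12k_i`) and such
that all places of bad reduction have degree at most four.  For coprime integers `a, b` the fibre at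
`t = a/b` is `E_i(a,b) : y² = x³ + A_i(a,b) x + B_i(a,b)` with the binary forms `A_i(a,b)`,
`B_i(a,b)` of degree `4k_i`, `6k_i`.

We prove that for every `θ > max k_i/(2k_i+1)` (in particular for some `θ < 1/2`) the abelian
varieties `A = E_1(a,b) × ⋯ × E_n(a,b)` over `ℚ` of dimension `n` satisfy
`h_F(A) ≤ θ log N_A` for 100% of all `t = a/b`, ordered by height.  Here `h_F` is the stable
Faltings height and `N_A` may even be replaced by the prime-to-6 part of the conductor.

Proof: function field Szpiro inequality (from Mason-Stothers) and an elementary sieve: for 100% of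
the pairs `(a,b)` the values at `(a,b)` of the forms of degree at most four belonging to the bad places are
squarefree but for a small part, and so determine the reduction types.

The parts of the proof (`Pool.Agent.W*.FR`) are by many helpers of the project FR.
-/

set_option autoImplicit false

namespace Pool.Agent.Results.MP_c59389_nt.FamiliesAlmostAll

open Polynomial UpperHalfPlane

/-- The value at `(a,b)` of the binary form of degree `D` attached to the polynomial `f`:
`b^D f(a/b) = ∑ f_i a^i b^(D-i)`. -/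
noncomputable def formValue (D : ℕ) (f : ℤ[X]) (a b : ℤ) : ℤ :=
  ∑ i ∈ Finset.range (D + 1), f.coeff i * a ^ i * b ^ (D - i)

/-- The pairs of coprime integers `(a,b)` with `|a|, |b| ≤ H`. -/
noncomputable def coprimeBox (H : ℕ) : Finset (ℤ × ℤ) :=
  ((Finset.Icc (-(H : ℤ)) H) ×ˢ (Finset.Icc (-(H : ℤ)) H)).filter
    (fun x => Int.gcd x.1 x.2 = 1)

open Classical in
/-- The conductor exponent at a prime `p ≥ 5` of `y² = x³ + a x + b`: `0` for good reduction (some
integral model `(a/p^(4m), b/p^(6m))` has discriminant prime to `p`), `1` for multiplicative reduction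
(some integral model has `p ∤ a/p^(4m)`), and `2` for additive reduction. -/
noncomputable def conductorExponent (p : ℕ) (a b : ℤ) : ℕ :=
  if ∃ (m : ℕ) (a' b' : ℤ), a = (p : ℤ) ^ (4 * m) * a' ∧ b = (p : ℤ) ^ (6 * m) * b' ∧
      ¬ (p : ℤ) ∣ 4 * a' ^ 3 + 27 * b' ^ 2 then 0
  else if ∃ (m : ℕ) (a' b' : ℤ), a = (p : ℤ) ^ (4 * m) * a' ∧ b = (p : ℤ) ^ (6 * m) * b' ∧
      ¬ (p : ℤ) ∣ a' then 1
  else 2

/-- The prime-to-6 part of the conductor of `y² = x³ + a x + b`. -/
noncomputable def conductorAwayFromSix (a b : ℤ) : ℕ :=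
  ∏ p ∈ (4 * a ^ 3 + 27 * b ^ 2).natAbs.primeFactors.filter (fun p => 5 ≤ p),
    p ^ conductorExponent p a b

/-- The `j`-invariant of `y² = x³ + a x + b`. -/
def jInvariant (a b : ℤ) : ℚ := 6912 * (a : ℚ) ^ 3 / (4 * (a : ℚ) ^ 3 + 27 * (b : ℚ) ^ 2)

/-- The stable Faltings height of an elliptic curve over `ℚ` with `j`-invariant `j`, where `τ` is a
point of the upper half plane with `E₄(τ)³/Δ(τ) = j`:
`(log den(j) - log (|Δ(τ)| (Im τ)^6)) / 12 - log (2π)`. -/
noncomputable def faltingsHeight (j : ℚ) (τ : ℍ) : ℝ :=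
  (Real.log j.den - Real.log (‖ModularForm.discriminant τ‖ * τ.im ^ 6)) / 12
    - Real.log (2 * Real.pi)

/-- `y² = x³ + A x + B` is a minimal equation of degree `k` over `ℚ(t)`, with non-constant
`j`-invariant, good reduction at `t = ∞`, and all places of bad reduction of degree `≤ 4`. -/
structure Admissible (k : ℕ) (A B : ℤ[X]) : Prop where
  one_le : 1 ≤ k
  degA : A.natDegree ≤ 4 * k
  degB : B.natDegree ≤ 6 * k
  degD : (4 * A ^ 3 + 27 * B ^ 2).natDegree = 12 * k
  minimal : ∀ P : ℤ[X], Irreducible P → 0 < P.natDegree → P ^ 4 ∣ A → ¬ P ^ 6 ∣ B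
  nonconstant : 3 * derivative A * B - 2 * A * derivative B ≠ 0
  places : ∀ P : ℤ[X], Irreducible P → P ∣ 4 * A ^ 3 + 27 * B ^ 2 → P.natDegree ≤ 4

/-- The fibres at `t = a/b` are elliptic curves, and the Faltings height of their product is at
most `θ` times the logarithm of the prime-to-6 part of its conductor. -/
def FreyInequality {n : ℕ} (k : Fin n → ℕ) (A B : Fin n → ℤ[X]) (θ : ℝ) (a b : ℤ) : Prop :=
  (∀ i, 4 * (formValue (4 * k i) (A i) a b) ^ 3 + 27 * (formValue (6 * k i) (B i) a b) ^ 2 ≠ 0) ∧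
  ∀ τ : Fin n → ℍ,
    (∀ i, ModularForm.E₄ (τ i) ^ 3 =
      ((jInvariant (formValue (4 * k i) (A i) a b) (formValue (6 * k i) (B i) a b) : ℚ) : ℂ) *
        ModularForm.discriminant (τ i)) →
    ∑ i, faltingsHeight
        (jInvariant (formValue (4 * k i) (A i) a b) (formValue (6 * k i) (B i) a b)) (τ i) ≤
      θ * Real.log (∏ i, (conductorAwayFromSix (formValue (4 * k i) (A i) a b)
        (formValue (6 * k i) (B i) a b) : ℝ))

open Classical in
theorem result : ∀ (n : ℕ) (k : Fin n → ℕ) (A B : Fin n → ℤ[X]),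
    (∀ i, Admissible (k i) (A i) (B i)) →
    ∀ θ : ℝ, (∀ i, (k i : ℝ) / (2 * k i + 1) < θ) →
    Filter.Tendsto (fun H : ℕ =>
      (((coprimeBox H).filter (fun x => FreyInequality k A B θ x.1 x.2)).card : ℝ) /
        (coprimeBox H).card) Filter.atTop (nhds 1) := by
  intro n k A B h θ hθ
  exact Pool.Agent.W355.FR.final_of Pool.Agent.W355.FR.fin n k A B (fun i => (h i).one_le)
    (fun i => (h i).degA) (fun i => (h i).degB) (fun i => (h i).degD) (fun i => (h i).minimal)
    (fun i => (h i).nonconstant) (fun i => (h i).places) θ hθ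
    (fun x => FreyInequality k A B θ x.1 x.2) (fun x => Iff.rfl)

end Pool.Agent.Results.MP_c59389_nt.FamiliesAlmostAll
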